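import Mathlib

set_option autoImplicit false

namespace Pool.Agent.Results.MP_4a9f27_co.Quadratic

open Pointwise Classical

/-- `prods S` is the set of all products of pairwise distinct elements of `S`, in any order,
the empty product `1` included. -/
def prods {G : Type*} [Group G] (S : Finset G) : Set G :=
  {g | ∃ l : List G, l.Nodup ∧ (∀ x ∈ l, x ∈ S) ∧ l.prod = g}

section basic

variable {G : Type*} [Group G]

theorem one_mem_prods (S : Finset G) : (1 : G) ∈ prods S :=
  ⟨[], List.nodup_nil, by simp, by simp⟩

theorem prods_mono {S T : Finset G} (h : S ⊆ T) : prods S ⊆ prods T := by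
  rintro g ⟨l, hl, hS, rfl⟩
  exact ⟨l, hl, fun x hx => h (hS x hx), rfl⟩

theorem mem_prods_of_mem {S : Finset G} {x : G} (h : x ∈ S) : x ∈ prods S :=
  ⟨[x], by simp, by simpa using h, by simp⟩

theorem mul_mem_prods {S T : Finset G} (hd : Disjoint S T) {a b : G}
    (ha : a ∈ prods S) (hb : b ∈ prods T) : a * b ∈ prods (S ∪ T) := by
  obtain ⟨l, hl, hlS, rfl⟩ := ha
  obtain ⟨m, hm, hmT, rfl⟩ := hb
  refine ⟨l ++ m, ?_, ?_, by simp⟩
  · rw [List.nodup_append]
    refine ⟨hl, hm, ?_⟩
    intro x hx y hy hxy
    subst hxy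
    exact (Finset.disjoint_left.mp hd) (hlS x hx) (hmT x hy)
  · intro x hx
    rcases List.mem_append.mp hx with h | h
    · exact Finset.mem_union_left _ (hlS x h)
    · exact Finset.mem_union_right _ (hmT x h)

theorem prods_sub {S : Finset G} {K : Subgroup G} (h : ∀ x ∈ S, x ∈ K) :
    prods S ⊆ (K : Set G) := by
  rintro g ⟨l, _, hS, rfl⟩
  exact Subgroup.list_prod_mem K (fun x hx => h x (hS x hx))

/-- The set of products is finite. -/
theorem prods_finite (S : Finset G) : (prods S).Finite := by
  have h1 : {l : List S | l.length ≤ S.card}.Finite := List.finite_length_le _ _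
  have h2 := h1.image (fun l => (l.map Subtype.val).prod)
  apply h2.subset
  rintro g ⟨l, hl, hS, rfl⟩
  refine ⟨l.attachWith (· ∈ S) hS, ?_, ?_⟩
  · show (l.attachWith (· ∈ S) hS).length ≤ S.card
    simp only [List.length_attachWith]
    calc l.length = l.toFinset.card := (List.toFinset_card_of_nodup hl).symm
      _ ≤ S.card := Finset.card_le_card (fun x hx => hS x (by simpa using hx))
  · simp

end basic

section growth

variable {G : Type*} [Group G]

/-- The number of `b ∈ B` with `b * x ∉ B`. -/
noncomputable def lam (B : Finset G) (x : G) : ℕ := (B.filter (fun b => b * x ∉ B)).card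

theorem lam_one (B : Finset G) : lam B 1 = 0 := by
  simp [lam]

theorem lam_add (B : Finset G) (x : G) :
    lam B x + (B.filter (fun b => b * x ∈ B)).card = B.card := by
  rw [lam, add_comm]
  exact Finset.card_filter_add_card_filter_not (fun b => b * x ∈ B)

theorem lam_inv (B : Finset G) (x : G) : lam B x⁻¹ = lam B x := by
  have h1 := lam_add B x
  have h2 := lam_add B x⁻¹
  have h3 : (B.filter (fun b => b * x ∈ B)).card = (B.filter (fun b => b * x⁻¹ ∈ B)).card := by
    apply Finset.card_bij (fun b _ => b * x)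
    · intro b hb
      simp only [Finset.mem_filter] at hb ⊢
      simpa using ⟨hb.2, hb.1⟩
    · intro a _ b _ h
      exact mul_right_cancel h
    · intro b hb
      simp only [Finset.mem_filter] at hb
      exact ⟨b * x⁻¹, by simpa using ⟨hb.2, hb.1⟩, by simp⟩
  omega

theorem lam_mul (B : Finset G) (x y : G) : lam B (x * y) ≤ lam B x + lam B y := by
  have h : B.filter (fun b => b * (x * y) ∉ B) ⊆
      B.filter (fun b => b * x ∉ B) ∪
        (B.filter (fun b => b * y ∉ B)).image (fun b => b * x⁻¹) := by
    intro b hb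
    simp only [Finset.mem_filter, Finset.mem_union, Finset.mem_image] at hb ⊢
    by_cases hx : b * x ∈ B
    · right
      exact ⟨b * x, ⟨hx, by simpa [mul_assoc] using hb.2⟩, by simp⟩
    · left
      exact ⟨hb.1, hx⟩
  calc lam B (x * y) ≤ _ := Finset.card_le_card h
    _ ≤ _ := Finset.card_union_le _ _
    _ ≤ lam B x + lam B y := Nat.add_le_add_left Finset.card_image_le _

/-- Averaging: some element of a large set moves at least half of `B` out of `B`. -/
theorem exists_lam_half (B X : Finset G) (hB : B.Nonempty) (h : 2 * B.card ≤ X.card) :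
    ∃ x ∈ X, B.card ≤ 2 * lam B x := by
  by_contra hcon
  push Not at hcon
  have h1 : ∑ x ∈ X, (B.filter (fun b => b * x ∈ B)).card ≤ B.card * B.card := by
    rw [← Finset.card_product, ← Finset.card_sigma]
    apply Finset.card_le_card_of_injOn (fun p => (p.2, p.2 * p.1))
    · rintro ⟨x, b⟩ hp
      simp only [Finset.coe_sigma, Set.mem_sigma_iff, Finset.mem_coe, Finset.mem_filter] at hp
      simp only [Finset.coe_product, Set.mem_prod, Finset.mem_coe]
      exact ⟨hp.2.1, hp.2.2⟩
    · rintro ⟨x, b⟩ _ ⟨y, c⟩ _ hxy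
      simp only [Prod.mk.injEq] at hxy
      obtain ⟨rfl, h2⟩ := hxy
      have := mul_left_cancel h2
      subst this
      rfl
  have h2 : ∀ x ∈ X, B.card < 2 * (B.filter (fun b => b * x ∈ B)).card := by
    intro x hx
    have := lam_add B x
    have := hcon x hx
    omega
  have hX : X.Nonempty := by
    rw [← Finset.card_pos]
    have := hB.card_pos
    omega
  have h3 : X.card * B.card < 2 * ∑ x ∈ X, (B.filter (fun b => b * x ∈ B)).card := by
    rw [Finset.mul_sum, ← smul_eq_mul, ← Finset.sum_const]
    exact Finset.sum_lt_sum_of_nonempty hX h2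
  have h4 : 2 * B.card * B.card ≤ X.card * B.card := Nat.mul_le_mul_right _ h
  nlinarith

/-- The symmetrised generating set. -/
noncomputable def symm (T : Finset G) : Finset G := insert 1 (T ∪ T⁻¹)

theorem one_mem_symm (T : Finset G) : (1 : G) ∈ symm T := Finset.mem_insert_self _ _

theorem inv_mem_symm {T : Finset G} {x : G} (h : x ∈ symm T) : x⁻¹ ∈ symm T := by
  simp only [symm, Finset.mem_insert, Finset.mem_union, Finset.mem_inv'] at h ⊢
  rcases h with rfl | h | h
  · left; simp
  · right; right; simpa using h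
  · right; left; exact h

theorem subset_symm (T : Finset G) : T ⊆ symm T := by
  intro x hx
  simp [symm, hx]

theorem symm_sub (T : Finset G) {x : G} (h : x ∈ symm T) :
    x ∈ Subgroup.closure (T : Set G) := by
  simp only [symm, Finset.mem_insert, Finset.mem_union, Finset.mem_inv'] at h
  rcases h with rfl | h | h
  · exact Subgroup.one_mem _
  · exact Subgroup.subset_closure h
  · have := Subgroup.subset_closure (k := (T : Set G)) h
    simpa using Subgroup.inv_mem _ this

theorem lam_symm {B T : Finset G} {μ : ℕ} (h : ∀ y ∈ T, lam B y ≤ μ) :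
    ∀ x ∈ symm T, lam B x ≤ μ := by
  intro x hx
  simp only [symm, Finset.mem_insert, Finset.mem_union, Finset.mem_inv'] at hx
  rcases hx with rfl | hx | hx
  · rw [lam_one]; exact Nat.zero_le _
  · exact h x hx
  · have := h _ hx
    rwa [lam_inv] at this

theorem lam_pow {B T : Finset G} {μ : ℕ} (h : ∀ y ∈ T, lam B y ≤ μ) (k : ℕ) :
    ∀ x ∈ symm T ^ k, lam B x ≤ k * μ := by
  induction k with
  | zero =>
    intro x hx
    simp only [pow_zero, Finset.mem_one] at hx
    subst hx
    rw [lam_one]; exact Nat.zero_le _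
  | succ k ih =>
    intro x hx
    rw [pow_succ, Finset.mem_mul] at hx
    obtain ⟨y, hy, z, hz, rfl⟩ := hx
    calc lam B (y * z) ≤ lam B y + lam B z := lam_mul B y z
      _ ≤ k * μ + μ := Nat.add_le_add (ih y hy) (lam_symm h z hz)
      _ = (k + 1) * μ := by ring

theorem pow_sub (T : Finset G) (k : ℕ) {x : G} (h : x ∈ symm T ^ k) :
    x ∈ Subgroup.closure (T : Set G) := by
  induction k generalizing x with
  | zero =>
    simp only [pow_zero, Finset.mem_one] at h
    subst h
    exact Subgroup.one_mem _
  | succ k ih =>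
    rw [pow_succ, Finset.mem_mul] at h
    obtain ⟨y, hy, z, hz, rfl⟩ := h
    exact Subgroup.mul_mem _ (ih hy) (symm_sub T hz)

theorem pow_mono (T : Finset G) (k : ℕ) : symm T ^ k ⊆ symm T ^ (k + 1) := by
  intro x hx
  rw [pow_succ, Finset.mem_mul]
  exact ⟨x, hx, 1, one_mem_symm T, by simp⟩

theorem one_mem_pow (T : Finset G) (k : ℕ) : (1 : G) ∈ symm T ^ k := by
  induction k with
  | zero => simp
  | succ k ih => exact pow_mono T k ih

/-- If the powers stabilise then they are the whole generated subgroup. -/
theorem pow_stab (T : Finset G) (k : ℕ) (h : symm T ^ (k + 1) ⊆ symm T ^ k) {g : G}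
    (hg : g ∈ Subgroup.closure (T : Set G)) : g ∈ symm T ^ k := by
  have key : ∀ g ∈ Subgroup.closure (T : Set G), ∀ v ∈ symm T ^ k,
      v * g ∈ symm T ^ k ∧ v * g⁻¹ ∈ symm T ^ k := by
    intro g hg
    induction hg using Subgroup.closure_induction with
    | mem x hx =>
      intro v hv
      constructor
      · apply h
        rw [pow_succ, Finset.mem_mul]
        exact ⟨v, hv, x, subset_symm T hx, rfl⟩
      · apply h
        rw [pow_succ, Finset.mem_mul]
        exact ⟨v, hv, x⁻¹, inv_mem_symm (subset_symm T hx), rfl⟩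
    | one => intro v hv; simpa using hv
    | mul x y _ _ ihx ihy =>
      intro v hv
      constructor
      · rw [← mul_assoc]
        exact (ihy _ (ihx v hv).1).1
      · rw [mul_inv_rev, ← mul_assoc]
        exact (ihx _ (ihy v hv).2).2
    | inv x _ ih =>
      intro v hv
      exact ⟨(ih v hv).2, by simpa using (ih v hv).1⟩
  have := (key g hg 1 (one_mem_pow T k)).1
  simpa using this

/-- Linear growth of powers of a symmetric generating set. -/
theorem pow_growth (T : Finset G) (j : ℕ) :
    (∀ g ∈ Subgroup.closure (T : Set G), g ∈ symm T ^ (3 * j + 1)) ∨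
      (j + 1) * (symm T).card ≤ (symm T ^ (3 * j + 1)).card := by
  induction j with
  | zero => right; simp
  | succ j ih =>
    by_cases hfull : ∀ g ∈ Subgroup.closure (T : Set G), g ∈ symm T ^ (3 * (j + 1) + 1)
    · left; exact hfull
    right
    rcases ih with ih | ih
    · exfalso
      apply hfull
      intro g hg
      have h1 := ih g hg
      have h2 := pow_mono T _ (pow_mono T _ (pow_mono T _ h1))
      have e : 3 * (j + 1) + 1 = 3 * j + 1 + 1 + 1 + 1 := by ring
      rw [e]; exact h2
    · have hns : ¬ symm T ^ (3 * j + 1 + 1 + 1) ⊆ symm T ^ (3 * j + 1 + 1) := by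
        intro hs
        apply hfull
        intro g hg
        have h1 := pow_stab T _ hs hg
        have h2 := pow_mono T _ (pow_mono T _ h1)
        have e : 3 * (j + 1) + 1 = 3 * j + 1 + 1 + 1 + 1 := by ring
        rw [e]; exact h2
      obtain ⟨g, hg, hg'⟩ := Finset.not_subset.mp hns
      have hdisj : Disjoint (symm T ^ (3 * j + 1)) ((symm T).image (fun u => g * u)) := by
        rw [Finset.disjoint_left]
        intro v hv hv'
        obtain ⟨u, hu, rfl⟩ := Finset.mem_image.mp hv'
        apply hg'
        rw [pow_succ, Finset.mem_mul]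
        exact ⟨g * u, hv, u⁻¹, inv_mem_symm hu, by simp⟩
      have hsub : symm T ^ (3 * j + 1) ∪ (symm T).image (fun u => g * u) ⊆
          symm T ^ (3 * (j + 1) + 1) := by
        have e : 3 * (j + 1) + 1 = 3 * j + 1 + 1 + 1 + 1 := by ring
        rw [e]
        apply Finset.union_subset
        · exact (pow_mono T _).trans ((pow_mono T _).trans (pow_mono T _))
        · intro v hv
          obtain ⟨u, hu, rfl⟩ := Finset.mem_image.mp hv
          rw [pow_succ, Finset.mem_mul]
          exact ⟨g, hg, u, hu, rfl⟩
      have hc := Finset.card_le_card hsub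
      rw [Finset.card_union_of_disjoint hdisj,
        Finset.card_image_of_injective _ (mul_right_injective g)] at hc
      nlinarith

/-- Growth lemma (after Olson): if `T` generates `K`, `B` has at most half the size of `K`, and
both `B` and `T` have at least `q` elements, then some `y ∈ T` satisfies `14 |By ∖ B| ≥ q`. -/
theorem growth (T B : Finset G) (q : ℕ) (hq : 0 < q) (hB : q ≤ B.card) (hT : q ≤ T.card)
    (hK : ∀ F : Finset G, (∀ g ∈ Subgroup.closure (T : Set G), g ∈ F) → 2 * B.card ≤ F.card) :
    ∃ y ∈ T, q ≤ 14 * lam B y := by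
  by_contra hcon
  push Not at hcon
  -- a uniform bound
  obtain ⟨μ, hμ, hμq⟩ : ∃ μ, (∀ y ∈ T, lam B y ≤ μ) ∧ 14 * μ < q := by
    refine ⟨T.sup (lam B), fun y hy => Finset.le_sup (f := lam B) hy, ?_⟩
    have hTn : T.Nonempty := Finset.card_pos.mp (by omega)
    obtain ⟨y, hy, h⟩ := Finset.exists_mem_eq_sup T hTn (lam B)
    rw [h]; exact hcon y hy
  have hBn : B.Nonempty := Finset.card_pos.mp (by omega)
  set b := B.card with hb
  set u := (symm T).card with hu
  have hqu : q ≤ u := hT.trans (Finset.card_le_card (subset_symm T))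
  -- choose j with j u ≤ 2 b ≤ (j+1) u
  set j := 2 * b / u with hj
  have hju : j * u ≤ 2 * b := Nat.div_mul_le_self _ _
  have hju' : 2 * b ≤ (j + 1) * u := by
    have h1 := Nat.div_add_mod (2 * b) u
    have h2 := Nat.mod_lt (2 * b) (show 0 < u by omega)
    have h3 : (j + 1) * u = u * (2 * b / u) + u := by rw [hj]; ring
    omega
  have hX : 2 * b ≤ (symm T ^ (3 * j + 1)).card := by
    rcases pow_growth T j with h | h
    · exact hK _ h
    · exact hju'.trans h
  obtain ⟨x, hx, hx2⟩ := exists_lam_half B _ hBn hX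
  have h1 := lam_pow hμ _ x hx
  -- b ≤ 2 (3 j + 1) μ
  have h2 : b ≤ 2 * ((3 * j + 1) * μ) := hx2.trans (Nat.mul_le_mul_left 2 h1)
  have h3 : b * u ≤ (12 * b + 2 * u) * μ := by
    calc b * u ≤ 2 * ((3 * j + 1) * μ) * u := Nat.mul_le_mul_right _ h2
      _ = (6 * (j * u) + 2 * u) * μ := by ring
      _ ≤ (6 * (2 * b) + 2 * u) * μ := by
        apply Nat.mul_le_mul_right
        omega
      _ = (12 * b + 2 * u) * μ := by ring
  have hb0 : 0 < b := by omega
  have h4 : (12 * b + 2 * u) * (14 * μ) < (12 * b + 2 * u) * q :=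
    Nat.mul_lt_mul_of_pos_left hμq (by omega)
  have h5 : (12 * b + 2 * u) * q ≤ 14 * (b * u) := by nlinarith
  nlinarith

theorem lam_union (B : Finset G) (y : G) :
    (B ∪ B.image (fun b => b * y)).card = B.card + lam B y := by
  have : B ∪ B.image (fun b => b * y) =
      B ∪ (B.filter (fun b => b * y ∉ B)).image (fun b => b * y) := by
    ext x
    simp only [Finset.mem_union, Finset.mem_image, Finset.mem_filter]
    constructor
    · rintro (h | ⟨b, hb, rfl⟩)
      · exact Or.inl h
      · by_cases h : b * y ∈ B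
        · exact Or.inl h
        · exact Or.inr ⟨b, ⟨hb, h⟩, rfl⟩
    · rintro (h | ⟨b, ⟨hb, _⟩, rfl⟩)
      · exact Or.inl h
      · exact Or.inr ⟨b, hb, rfl⟩
  rw [this, Finset.card_union_of_disjoint, Finset.card_image_of_injective _ (mul_left_injective y)]
  · rfl
  · rw [Finset.disjoint_left]
    intro x hx hx'
    simp only [Finset.mem_image, Finset.mem_filter] at hx'
    obtain ⟨b, ⟨_, hb⟩, rfl⟩ := hx'
    exact hb hx

/-- `B` is larger than half of the subgroup `K`. -/
def Big (K : Subgroup G) (B : Finset G) : Prop :=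
  ∃ F : Finset G, (∀ g ∈ K, g ∈ F) ∧ F.card < 2 * B.card

/-- One phase of the growth process. -/
theorem phase (S : Finset G) (K : Subgroup G) (q : ℕ) (hq : 0 < q)
    (hrob : ∀ T ⊆ S, S.card ≤ T.card + 4 * q → Subgroup.closure (T : Set G) = K)
    (hS : 5 * q ≤ S.card) (A : Finset G) (hA : A ⊆ S) (hAc : S.card ≤ A.card + 2 * q)
    (i : ℕ) (hi : i ≤ q) :
    ∃ P B : Finset G, P ⊆ A ∧ P.card ≤ q + i ∧ (B : Set G) ⊆ prods P ∧
      (Big K B ∨ (q ≤ B.card ∧ i * q ≤ 14 * B.card)) := by
  induction i with
  | zero =>
    obtain ⟨P, hP, hPc⟩ := Finset.exists_subset_card_eq (s := A) (n := q) (by omega)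
    exact ⟨P, P, hP, by omega, fun x hx => mem_prods_of_mem hx, Or.inr ⟨by omega, by omega⟩⟩
  | succ i ih =>
    obtain ⟨P, B, hPA, hPc, hBP, hB⟩ := ih (by omega)
    rcases hB with hB | ⟨hBq, hBi⟩
    · exact ⟨P, B, hPA, by omega, hBP, Or.inl hB⟩
    by_cases hbig : Big K B
    · exact ⟨P, B, hPA, by omega, hBP, Or.inl hbig⟩
    have hTc : A.card = (A \ P).card + P.card := by
      rw [Finset.card_sdiff_of_subset hPA]
      have := Finset.card_le_card hPA
      omega
    have hcl := hrob (A \ P) (Finset.sdiff_subset.trans hA) (by omega)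
    obtain ⟨y, hy, hyq⟩ := growth (A \ P) B q hq hBq (by omega) (by
      intro F hF
      rw [hcl] at hF
      by_contra hlt
      exact hbig ⟨F, hF, by omega⟩)
    rw [Finset.mem_sdiff] at hy
    refine ⟨P ∪ {y}, B ∪ B.image (fun b => b * y), ?_, ?_, ?_, Or.inr ⟨?_, ?_⟩⟩
    · apply Finset.union_subset hPA
      intro z hz
      rw [Finset.mem_singleton] at hz
      rw [hz]; exact hy.1
    · have := Finset.card_union_le P {y}
      simp only [Finset.card_singleton] at this
      omega
    · intro x hx
      simp only [Finset.coe_union, Finset.coe_image, Set.mem_union, Finset.mem_coe,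
        Set.mem_image] at hx
      rcases hx with hx | ⟨b, hb, rfl⟩
      · exact prods_mono Finset.subset_union_left (hBP hx)
      · apply mul_mem_prods
        · rw [Finset.disjoint_singleton_right]; exact hy.2
        · exact hBP hb
        · exact mem_prods_of_mem (Finset.mem_singleton_self y)
    · rw [lam_union]; omega
    · rw [lam_union]
      have : (i + 1) * q = i * q + q := by ring
      omega

end growth

section main

variable {G : Type*} [Group G]

theorem card_le_ncard {S : Finset G} {B : Finset G} (h : (B : Set G) ⊆ prods S) :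
    B.card ≤ (prods S).ncard := by
  rw [← Set.ncard_coe_finset]
  exact Set.ncard_le_ncard h (prods_finite S)

/-- If `S` robustly generates `K` then the products fill out `K`. -/
theorem robust (S : Finset G) (K : Subgroup G) (q : ℕ) (hq : 0 < q)
    (hSK : ∀ x ∈ S, x ∈ K)
    (hrob : ∀ T ⊆ S, S.card ≤ T.card + 4 * q → Subgroup.closure (T : Set G) = K)
    (hS : 5 * q ≤ S.card) (hn : 14 * (prods S).ncard < q * q) :
    (K : Set G) ⊆ prods S := by
  obtain ⟨P, B, hPA, hPc, hBP, hB⟩ :=
    phase S K q hq hrob hS S (Finset.Subset.refl S) (by omega) q le_rfl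
  have hnot : ∀ P B : Finset G, P ⊆ S → (B : Set G) ⊆ prods P → ¬ (q * q ≤ 14 * B.card) := by
    intro P B hP hB h
    have := card_le_ncard (hB.trans (prods_mono hP))
    omega
  have hBb : Big K B := by
    rcases hB with h | ⟨_, h⟩
    · exact h
    · exact absurd h (hnot P B hPA hBP)
  have hAc : S.card ≤ (S \ P).card + 2 * q := by
    rw [Finset.card_sdiff_of_subset hPA]
    omega
  obtain ⟨P', B', hPA', hPc', hBP', hB'⟩ :=
    phase S K q hq hrob hS (S \ P) Finset.sdiff_subset hAc q le_rfl
  have hP'S : P' ⊆ S := hPA'.trans Finset.sdiff_subset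
  have hBb' : Big K B' := by
    rcases hB' with h | ⟨_, h⟩
    · exact h
    · exact absurd h (hnot P' B' hP'S hBP')
  have hdisj : Disjoint P P' := by
    rw [Finset.disjoint_left]
    intro x hx hx'
    have := hPA' hx'
    rw [Finset.mem_sdiff] at this
    exact this.2 hx
  have hBK : ∀ b ∈ B, b ∈ K := fun b hb =>
    prods_sub (fun x hx => hSK x (hPA hx)) (hBP hb)
  have hBK' : ∀ b ∈ B', b ∈ K := fun b hb =>
    prods_sub (fun x hx => hSK x (hP'S hx)) (hBP' hb)
  obtain ⟨F, hF, hFc⟩ := hBb
  obtain ⟨F', hF', hFc'⟩ := hBb'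
  -- a finset equal to K
  set E : Finset G := F.filter (· ∈ K) with hE
  have hEK : ∀ g, g ∈ E ↔ g ∈ K := by
    intro g
    rw [hE, Finset.mem_filter]
    exact ⟨fun h => h.2, fun h => ⟨hF g h, h⟩⟩
  have hE1 : E.card < 2 * B.card :=
    lt_of_le_of_lt (Finset.card_le_card (Finset.filter_subset _ _)) hFc
  have hE2 : E.card < 2 * B'.card := by
    apply lt_of_le_of_lt (Finset.card_le_card (t := F') _) hFc'
    intro g hg
    exact hF' g ((hEK g).mp hg)
  intro g hg
  -- B⁻¹ g and B' are both more than half of K
  have hsub : B.image (fun b => b⁻¹ * g) ∪ B' ⊆ E := by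
    intro x hx
    rw [Finset.mem_union, Finset.mem_image] at hx
    rw [hEK]
    rcases hx with ⟨b, hb, rfl⟩ | hx
    · exact K.mul_mem (K.inv_mem (hBK b hb)) hg
    · exact hBK' x hx
  have hnd : ¬ Disjoint (B.image (fun b => b⁻¹ * g)) B' := by
    intro hd
    have h1 := Finset.card_le_card hsub
    rw [Finset.card_union_of_disjoint hd, Finset.card_image_of_injective] at h1
    · omega
    · intro a b hab
      simpa using hab
  rw [Finset.not_disjoint_iff] at hnd
  obtain ⟨x, hx, hx'⟩ := hnd
  rw [Finset.mem_image] at hx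
  obtain ⟨b, hb, rfl⟩ := hx
  have h1 := mul_mem_prods hdisj (hBP hb) (hBP' hx')
  rw [mul_inv_cancel_left] at h1
  exact prods_mono (Finset.union_subset hPA hP'S) h1

/-- If `y ∈ S` lies outside the subgroup `H`, and `H`-products come from `S ∩ H`, the number of
products doubles. -/
theorem doubling (S S' : Finset G) (K : Subgroup G) (hS' : S' ⊆ S) (hK : ∀ x ∈ S', x ∈ K)
    (y : G) (hy : y ∈ S) (hyK : y ∉ K) (W : Set G) (hW : W ⊆ prods S') :
    2 * W.ncard ≤ (prods S).ncard := by
  have hWf : W.Finite := (prods_finite S').subset hW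
  have hWK : W ⊆ (K : Set G) := hW.trans (prods_sub hK)
  have hyS' : y ∉ S' := fun h => hyK (hK y h)
  have h1 : W ∪ (fun w => w * y) '' W ⊆ prods S := by
    rintro x (hx | ⟨w, hw, rfl⟩)
    · exact prods_mono hS' (hW hx)
    · apply prods_mono (S := S' ∪ {y})
      · apply Finset.union_subset hS'
        simpa using hy
      · apply mul_mem_prods
        · simpa using hyS'
        · exact hW hw
        · exact mem_prods_of_mem (Finset.mem_singleton_self y)
  have hd : Disjoint W ((fun w => w * y) '' W) := by
    rw [Set.disjoint_left]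
    rintro x hx ⟨w, hw, rfl⟩
    apply hyK
    have := K.mul_mem (K.inv_mem (hWK hw)) (hWK hx)
    simpa using this
  have h2 := Set.ncard_le_ncard h1 (prods_finite S)
  rw [Set.ncard_union_eq hd hWf (hWf.image _),
    Set.ncard_image_of_injective _ (mul_left_injective y)] at h2
  omega

theorem main_aux (n : ℕ) : ∀ S : Finset G, S.card = n →
    ∃ H : Subgroup G, (H : Set G) ⊆ prods (S.filter (· ∈ H)) ∧
      (S.filter (· ∉ H)).card ^ 2 ≤ 12288 * (prods S).ncard := by
  induction n using Nat.strong_induction_on with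
  | _ n ih =>
    intro S hSn
    set N := (prods S).ncard with hN
    have hN1 : 1 ≤ N := by
      rw [hN]
      exact (Set.ncard_pos (prods_finite S)).mpr ⟨1, one_mem_prods S⟩
    by_cases hsmall : S.card ^ 2 ≤ 12288 * N
    · refine ⟨⊥, ?_, ?_⟩
      · intro x hx
        simp only [Subgroup.coe_bot, Set.mem_singleton_iff] at hx
        rw [hx]; exact one_mem_prods _
      · refine le_trans (Nat.pow_le_pow_left (Finset.card_le_card (Finset.filter_subset _ _)) 2)
          hsmall
    push Not at hsmall
    set r := Nat.sqrt N + 1 with hr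
    have hr1 : N < r * r := by
      rw [hr]; exact Nat.lt_succ_sqrt N
    have hr2 : r * r ≤ 4 * N := by
      have h1 : 1 ≤ Nat.sqrt N := by
        rw [Nat.one_le_iff_ne_zero]
        intro h0
        rw [Nat.sqrt_eq_zero] at h0
        omega
      have h2 : Nat.sqrt N * Nat.sqrt N ≤ N := Nat.sqrt_le N
      rw [hr]
      nlinarith
    have hr0 : 0 < r := Nat.succ_pos _
    have hSr : 20 * r ≤ S.card := by
      by_contra hlt
      push Not at hlt
      have : S.card ^ 2 ≤ (20 * r) ^ 2 := Nat.pow_le_pow_left hlt.le 2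
      nlinarith
    by_cases hcase : ∃ T ⊆ S, S.card ≤ T.card + 4 * (4 * r) ∧
        Subgroup.closure (T : Set G) ≠ Subgroup.closure (S : Set G)
    · obtain ⟨T, hTS, hTc, hTne⟩ := hcase
      set K := Subgroup.closure (T : Set G) with hK
      set S' := S.filter (· ∈ K) with hS'
      have hTS' : T ⊆ S' := by
        intro x hx
        rw [hS', Finset.mem_filter]
        exact ⟨hTS hx, Subgroup.subset_closure hx⟩
      have hex : ∃ y ∈ S, y ∉ K := by
        by_contra hall
        push Not at hall
        apply hTne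
        apply le_antisymm (Subgroup.closure_mono (by exact_mod_cast hTS))
        rw [Subgroup.closure_le]
        intro x hx
        exact hall x hx
      obtain ⟨y, hyS, hyK⟩ := hex
      have hlt : S'.card < n := by
        rw [← hSn]
        apply Finset.card_lt_card
        rw [Finset.ssubset_iff_of_subset (Finset.filter_subset _ _)]
        exact ⟨y, hyS, fun h => hyK (Finset.mem_filter.mp h).2⟩
      obtain ⟨H, hH1, hH2⟩ := ih S'.card hlt S' rfl
      have hdbl := doubling S S' K (Finset.filter_subset _ _)
        (fun x hx => (Finset.mem_filter.mp hx).2) y hyS hyK (prods S') subset_rfl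
      refine ⟨H, hH1.trans (prods_mono ?_), ?_⟩
      · exact Finset.filter_subset_filter _ (Finset.filter_subset _ _)
      · have hc : (S.filter (· ∉ H)).card ≤ 16 * r + (S'.filter (· ∉ H)).card := by
          have hsub : S.filter (· ∉ H) ⊆ (S \ T) ∪ S'.filter (· ∉ H) := by
            intro x hx
            rw [Finset.mem_filter] at hx
            rw [Finset.mem_union, Finset.mem_sdiff, Finset.mem_filter]
            by_cases hxT : x ∈ T
            · right; exact ⟨hTS' hxT, hx.2⟩
            · left; exact ⟨hx.1, hxT⟩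
          have h1 := (Finset.card_le_card hsub).trans (Finset.card_union_le _ _)
          rw [Finset.card_sdiff_of_subset hTS] at h1
          omega
        set D := (S.filter (· ∉ H)).card
        set D' := (S'.filter (· ∉ H)).card
        have h1 : D ^ 2 ≤ (16 * r + D') ^ 2 := Nat.pow_le_pow_left hc 2
        have h2 : 3 * (16 * r + D') ^ 2 ≤ 12 * (16 * r) ^ 2 + 4 * D' ^ 2 := by
          zify
          nlinarith [sq_nonneg ((3 : ℤ) * (16 * r) - D')]
        have h3 : D' ^ 2 ≤ 12288 * (prods S').ncard := hH2
        nlinarith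
    · push Not at hcase
      refine ⟨Subgroup.closure (S : Set G), ?_, ?_⟩
      · have h1 : S.filter (· ∈ Subgroup.closure (S : Set G)) = S := by
          rw [Finset.filter_eq_self]
          intro x hx
          exact Subgroup.subset_closure hx
        rw [h1]
        apply robust S _ (4 * r) (by omega) (fun x hx => Subgroup.subset_closure hx) hcase
          (by omega)
        rw [← hN]
        nlinarith
      · have h1 : S.filter (· ∉ Subgroup.closure (S : Set G)) = ∅ := by
          rw [Finset.filter_eq_empty_iff]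
          intro x hx
          simpa using Subgroup.subset_closure (k := (S : Set G)) hx
        rw [h1]; simp

end main

/-- Every finite subset `S` of every group `G` has a finite subgroup `H` with
`|prods S| ≥ |H| + c |S ∖ H|²`, where `c = 1/24576` is absolute. -/
theorem result (G : Type*) [Group G] (S : Finset G) :
    ∃ H : Subgroup G, (H : Set G).Finite ∧
      (Nat.card H : ℝ) + (1 / 24576) * (((S : Set G) \ (H : Set G)).ncard : ℝ) ^ 2
        ≤ ((prods S).ncard : ℝ) := by
  obtain ⟨H, hH1, hH2⟩ := main_aux S.card S rfl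
  have hHS : (H : Set G) ⊆ prods S := hH1.trans (prods_mono (Finset.filter_subset _ _))
  have hHf : (H : Set G).Finite := (prods_finite S).subset hHS
  refine ⟨H, hHf, ?_⟩
  have hcard : Nat.card H = (H : Set G).ncard := rfl
  have hdiff : (S : Set G) \ (H : Set G) = ((S.filter (· ∉ H) : Finset G) : Set G) := by
    ext x
    simp
  rw [hcard, hdiff, Set.ncard_coe_finset]
  rcases Finset.eq_empty_or_nonempty (S.filter (· ∉ H)) with he | ⟨y, hy⟩
  · rw [he]
    have := Set.ncard_le_ncard hHS (prods_finite S)
    simp only [Finset.card_empty, Nat.cast_zero]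
    have h2 : ((H : Set G).ncard : ℝ) ≤ ((prods S).ncard : ℝ) := by exact_mod_cast this
    linarith
  · rw [Finset.mem_filter] at hy
    have h1 := doubling S (S.filter (· ∈ H)) H (Finset.filter_subset _ _)
      (fun x hx => (Finset.mem_filter.mp hx).2) y hy.1 hy.2 (H : Set G) hH1
    have h2 : (2 : ℝ) * ((H : Set G).ncard : ℝ) ≤ ((prods S).ncard : ℝ) := by exact_mod_cast h1
    have h3 : (((S.filter (· ∉ H)).card : ℝ)) ^ 2 ≤ 12288 * ((prods S).ncard : ℝ) := by
      exact_mod_cast hH2
    linarith

end Pool.Agent.Results.MP_4a9f27_co.Quadratic
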